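import Mathlib
import Pool.Agent.Y208.AC.Stm

/-!
# Job AC-RF: groups of elementary 2x2 matrices over reduced rings are residually finite
-/

set_option autoImplicit false

namespace Pool.Agent.Y286.AC

open Matrix Pool.Agent.Helper667.ElemGroup Pool.Agent.Helper667.SLTwo

/-- the integers form a Jacobson ring -/
theorem int_jacobson : IsJacobsonRing ℤ := by
  rw [isJacobsonRing_iff_prime_eq]
  intro P hP
  by_cases h : P = ⊥
  · subst h
    rw [eq_bot_iff]
    intro x hx
    rw [Ideal.mem_jacobson_bot] at hx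
    have h1 := hx x
    rw [Int.isUnit_iff] at h1
    rw [Ideal.mem_bot]
    rcases h1 with h1 | h1
    · have : x * x = 0 := by linarith
      exact mul_self_eq_zero.mp this
    · nlinarith [mul_self_nonneg x]
  · have : P.IsMaximal := IsPrime.to_maximal_ideal (hpi := hP) h
    exact Ideal.jacobson_eq_self_of_isMaximal

/-- a field of finite type over the integers is finite -/
theorem finite_field (K : Type) [Field K] [Algebra.FiniteType ℤ K] :
    Finite K := by
  have := int_jacobson
  have hfin : Module.Finite ℤ K := finite_of_finite_type_of_isJacobsonRing ℤ K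
  apply Module.finite_of_fg_torsion
  obtain ⟨p, hp⟩ := CharP.exists K
  have hp0 : p ≠ 0 := by
    rintro rfl
    have : CharZero K := CharP.charP_to_charZero K
    have hint : Algebra.IsIntegral ℤ K := inferInstance
    have hinj : Function.Injective (algebraMap ℤ K) := by
      intro a b h
      simpa using h
    exact Int.not_isField (isField_of_isIntegral_of_isField hinj (Field.toIsField K))
  intro x
  refine ⟨⟨(p : ℤ), ?_⟩, ?_⟩
  · exact mem_nonZeroDivisors_of_ne_zero (by exact_mod_cast hp0)
  · show (p : ℤ) • x = 0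
    rw [zsmul_eq_mul, Int.cast_natCast, CharP.cast_eq_zero, zero_mul]

theorem rf : Pool.Agent.Y208.AC.S_RF := by
  intro A _ _ L hL g hg
  set T : Set A := Prod.fst '' L ∪ Prod.snd '' L with hT
  have hTfin : T.Finite := (hL.image _).union (hL.image _)
  set R : Subalgebra ℤ A := Algebra.adjoin ℤ T with hR
  have hfg : Algebra.FiniteType ℤ R := by
    rw [← Subalgebra.fg_iff_finiteType, hR, ← hTfin.coe_toFinset]
    exact Subalgebra.fg_adjoin_finset _
  have hT1 : ∀ p ∈ L, p.1 ∈ R := fun p hp => Algebra.subset_adjoin (Or.inl ⟨p, hp, rfl⟩)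
  have hT2 : ∀ p ∈ L, p.2 ∈ R := fun p hp => Algebra.subset_adjoin (Or.inr ⟨p, hp, rfl⟩)
  have hj := int_jacobson
  have hRj : IsJacobsonRing R := isJacobsonRing_of_finiteType (A := ℤ)
  have hred : IsReduced R := isReduced_of_injective R.val Subtype.val_injective
  -- the injection
  set i : SpecialLinearGroup (Fin 2) R →* SpecialLinearGroup (Fin 2) A :=
    SpecialLinearGroup.map R.val.toRingHom with hi
  have hi_app : ∀ (x : SpecialLinearGroup (Fin 2) R) (a b : Fin 2), (i x) a b = (x a b : A) := by
    intro x a b; rfl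
  have hinj : Function.Injective i := by
    intro x y h
    ext a b
    rw [← hi_app, ← hi_app, h]
  have hle : Gr L ≤ i.range := by
    refine (Subgroup.closure_le _).mpr ?_
    have e12 : ∀ r : A, r ∈ R → E12 r ∈ i.range := by
      intro r hr
      refine ⟨E12 ⟨r, hr⟩, ?_⟩
      refine sl_ext ?_ ?_ ?_ ?_ <;> rw [hi_app] <;> simp
    have e21 : ∀ r : A, r ∈ R → E21 r ∈ i.range := by
      intro r hr
      refine ⟨E21 ⟨r, hr⟩, ?_⟩
      refine sl_ext ?_ ?_ ?_ ?_ <;> rw [hi_app] <;> simp
    rintro x (hx | hx)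
    · simp only [Set.mem_iUnion] at hx
      obtain ⟨p, hp, hx⟩ := hx
      rcases hx with rfl | rfl | rfl | rfl
      · exact e12 _ (hT1 p hp)
      · exact e12 _ (hT2 p hp)
      · exact e21 _ (hT1 p hp)
      · exact e21 _ (hT2 p hp)
    · rcases hx with rfl | rfl
      · exact e12 _ R.one_mem
      · exact e21 _ R.one_mem
  set φ : Gr L →* SpecialLinearGroup (Fin 2) R :=
    (MonoidHom.ofInjective hinj).symm.toMonoidHom.comp (Subgroup.inclusion hle) with hφ
  have hφi : ∀ x : Gr L, i (φ x) = x := by
    intro x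
    have h1 := (MonoidHom.ofInjective hinj).apply_symm_apply (Subgroup.inclusion hle x)
    have h2 := congrArg Subtype.val h1
    exact h2
  have hφg : φ g ≠ 1 := by
    intro h
    apply hg
    apply Subtype.ext
    rw [← hφi g, h, map_one]
    rfl
  obtain ⟨a, b, hab⟩ : ∃ a b : Fin 2, (φ g) a b ≠ (1 : SpecialLinearGroup (Fin 2) R) a b := by
    by_contra hcon
    push Not at hcon
    exact hφg (sl_ext (hcon 0 0) (hcon 0 1) (hcon 1 0) (hcon 1 1))
  set r : R := (φ g) a b - (1 : SpecialLinearGroup (Fin 2) R) a b with hr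
  have hr0 : r ≠ 0 := sub_ne_zero.mpr hab
  have hjac : r ∉ (⊥ : Ideal R).jacobson := by
    rw [← Ideal.radical_eq_jacobson]
    have h1 : (⊥ : Ideal R).radical = ⊥ := nilradical_eq_zero R
    rw [h1, Ideal.mem_bot]
    exact hr0
  obtain ⟨m, hm, hrm⟩ : ∃ m : Ideal R, m.IsMaximal ∧ r ∉ m := by
    by_contra hcon
    push Not at hcon
    apply hjac
    rw [Ideal.jacobson, Submodule.mem_sInf]
    intro m hm
    exact hcon m hm.2
  have hfin : Finite (R ⧸ m) := by
    have hft : @Algebra.FiniteType ℤ (R ⧸ m) _ _ (Ring.toIntAlgebra _) := by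
      let _ : Algebra ℤ (R ⧸ m) := Ring.toIntAlgebra _
      exact Algebra.FiniteType.of_surjective (Ideal.Quotient.mk m).toIntAlgHom
        Ideal.Quotient.mk_surjective
    let fld : Field (R ⧸ m) := Ideal.Quotient.field m
    exact finite_field (R ⧸ m)
  refine ⟨SpecialLinearGroup (Fin 2) (R ⧸ m), inferInstance, Subtype.finite,
    (SpecialLinearGroup.map (Ideal.Quotient.mk m)).comp φ, ?_⟩
  intro h
  apply hrm
  rw [← Ideal.Quotient.eq_zero_iff_mem, hr, map_sub, sub_eq_zero]
  have h1 := congrArg (fun x : SpecialLinearGroup (Fin 2) (R ⧸ m) => x a b) h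
  have h2 : (SpecialLinearGroup.map (Ideal.Quotient.mk m) (φ g)) a b =
      (SpecialLinearGroup.map (Ideal.Quotient.mk m) 1) a b := by
    rw [map_one]; exact h1
  exact h2

end Pool.Agent.Y286.AC
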